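import Pool.Agent.helper19.HF.SpecA

set_option autoImplicit false

namespace Pool.Agent.HF

open Finset

section gen

variable {G : Type} [AddCommGroup G] [DecidableEq G]

theorem POL_comm (A B : Finset G) (x : G) : rp A B x = rp B A x := by
  unfold rp
  refine Finset.card_nbij' (fun a => x - a) (fun a => x - a) ?_ ?_ ?_ ?_
  · intro a ha
    simp only [Finset.coe_filter, Set.mem_ofPred_eq] at ha ⊢
    exact ⟨ha.2, by rw [sub_sub_cancel]; exact ha.1⟩
  · intro a ha
    simp only [Finset.coe_filter, Set.mem_ofPred_eq] at ha ⊢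
    exact ⟨ha.2, by rw [sub_sub_cancel]; exact ha.1⟩
  · intro a _
    exact sub_sub_cancel x a
  · intro a _
    exact sub_sub_cancel x a

theorem POL_le1 (A B : Finset G) (x : G) : rp A B x ≤ #A := Finset.card_filter_le _ _

theorem POL_le2 (A B : Finset G) (x : G) : rp A B x ≤ #B := by
  rw [POL_comm]
  exact POL_le1 _ _ _

theorem POL_add1 (A1 A2 B : Finset G) (h : Disjoint A1 A2) (x : G) : rp (A1 ∪ A2) B x = rp A1 B x + rp A2 B x := by
  unfold rp
  rw [Finset.filter_union, Finset.card_union_of_disjoint]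
  exact Finset.disjoint_filter_filter h

theorem POL_add2 (A B1 B2 : Finset G) (h : Disjoint B1 B2) (x : G) : rp A (B1 ∪ B2) x = rp A B1 x + rp A B2 x := by
  rw [POL_comm, POL_add1 _ _ _ h, POL_comm B1, POL_comm B2]

theorem POL_mono (A A' B : Finset G) (h : A' ⊆ A) (x : G) : rp A' B x ≤ rp A B x := by
  unfold rp
  exact Finset.card_le_card (Finset.filter_subset_filter _ h)

theorem POL_dec (A B : Finset G) (x : G) : rp A B x = rp (A \ B) (B \ A) x + rp (A ∪ B) (A ∩ B) x := by
  have e1 : rp A B x = rp A (A ∩ B) x + rp A (B \ A) x := by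
    rw [← POL_add2]
    · congr 1
      ext y
      simp only [Finset.mem_union, Finset.mem_inter, Finset.mem_sdiff]
      tauto
    · rw [Finset.disjoint_left]
      intro y hy hy2
      simp only [Finset.mem_inter, Finset.mem_sdiff] at hy hy2
      exact hy2.2 hy.1
  have e2 : rp A (B \ A) x = rp (A \ B) (B \ A) x + rp (A ∩ B) (B \ A) x := by
    rw [← POL_add1]
    · congr 1
      ext y
      simp only [Finset.mem_union, Finset.mem_inter, Finset.mem_sdiff]
      tauto
    · rw [Finset.disjoint_left]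
      intro y hy hy2
      simp only [Finset.mem_inter, Finset.mem_sdiff] at hy hy2
      exact hy.2 hy2.2
  have e3 : rp (A ∪ B) (A ∩ B) x = rp A (A ∩ B) x + rp (B \ A) (A ∩ B) x := by
    rw [← POL_add1]
    · congr 1
      ext y
      simp only [Finset.mem_union, Finset.mem_sdiff]
      tauto
    · rw [Finset.disjoint_left]
      intro y hy hy2
      simp only [Finset.mem_sdiff] at hy2
      exact hy2.2 hy
  rw [e1, e2, e3, POL_comm (B \ A)]
  omega

theorem POL_tr (A B : Finset G) (s u x : G) : rp (A.image (· - s)) (B.image (· - u)) x = rp A B (x + (s + u)) := by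
  unfold rp
  symm
  refine Finset.card_nbij' (fun a => a - s) (fun a => a + s) ?_ ?_ ?_ ?_
  · intro a ha
    simp only [Finset.coe_filter, Set.mem_ofPred_eq, Finset.mem_image] at ha ⊢
    exact ⟨⟨a, ha.1, rfl⟩, ⟨x + (s + u) - a, ha.2, by abel⟩⟩
  · intro a ha
    simp only [Finset.coe_filter, Set.mem_ofPred_eq, Finset.mem_image] at ha ⊢
    obtain ⟨⟨c, hc, rfl⟩, d, hd, hdx⟩ := ha
    refine ⟨by rw [sub_add_cancel]; exact hc, ?_⟩
    have : x + (s + u) - (c - s + s) = d := by
      have h1 : d = x - (c - s) + u := by rw [← hdx]; abel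
      rw [h1]; abel
    rw [this]
    exact hd
  · intro a _
    exact sub_add_cancel a s
  · intro a _
    exact add_sub_cancel_right a s

theorem POL_card (A : Finset G) (s : G) : #(A.image (· - s)) = #A :=
  Finset.card_image_of_injective _ (sub_left_injective)

theorem POL_sum [Fintype G] (A B : Finset G) : ∑ x : G, rp A B x = #A * #B := by
  unfold rp
  simp_rw [Finset.card_filter]
  rw [Finset.sum_comm]
  have : ∀ a ∈ A, ∑ x : G, (if x - a ∈ B then 1 else 0) = #B := by
    intro a _
    have e := Equiv.sum_comp (Equiv.subRight a) (fun y => if y ∈ B then (1 : ℕ) else 0)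
    have e1 : ∑ x : G, (if x - a ∈ B then (1 : ℕ) else 0) = ∑ y : G, (if y ∈ B then (1 : ℕ) else 0) := e
    rw [e1]
    simp
  rw [Finset.sum_congr rfl this, Finset.sum_const, smul_eq_mul]

end gen

theorem POL_shift (p : ℕ) [Fact p.Prime] (A : Finset (ZMod p)) (d : ZMod p) (hd : d ≠ 0) (hA : A.Nonempty) (hA2 : #A < p) :
    ∃ x ∈ A, x + d ∉ A := by
  by_contra hcon
  push Not at hcon
  obtain ⟨x0, hx0⟩ := hA
  have h1 : ∀ k : ℕ, x0 + (k : ZMod p) * d ∈ A := by
    intro k
    induction k with
    | zero => simpa using hx0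
    | succ k ih =>
      have := hcon _ ih
      have e : x0 + ((k + 1 : ℕ) : ZMod p) * d = x0 + (k : ZMod p) * d + d := by push_cast; ring
      rw [e]
      exact this
  have h2 : ∀ y : ZMod p, y ∈ A := by
    intro y
    have := h1 ((y - x0) * d⁻¹).val
    rw [ZMod.natCast_zmod_val, inv_mul_cancel_right₀ hd] at this
    simpa using this
  have h3 : A = univ := Finset.eq_univ_iff_forall.mpr h2
  rw [h3, Finset.card_univ, ZMod.card] at hA2
  exact lt_irrefl _ hA2

theorem POL_step (p : ℕ) [Fact p.Prime] (n : ℕ) (ih : ∀ A B : Finset (ZMod p), #B < n → ∀ t, 1 ≤ t → t ≤ #A → t ≤ #B → #A + #B ≤ p + t →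
    t * (#A + #B - t) ≤ ∑ x : ZMod p, min (rp A B x) t) (A B : Finset (ZMod p)) (hn : #B = n) (t : ℕ) (ht : 1 ≤ t) (hA : t < #A) (hB : t < #B)
    (hp : #A + #B ≤ p + t) (hU : 1 ≤ #(A ∩ B)) (hU2 : #(A ∩ B) < #B) : t * (#A + #B - t) ≤ ∑ x : ZMod p, min (rp A B x) t := by
  have hc : #(A ∪ B) + #(A ∩ B) = #A + #B := Finset.card_union_add_card_inter A B
  have hI : #A ≤ #(A ∪ B) := Finset.card_le_card Finset.subset_union_left
  rcases le_or_gt t #(A ∩ B) with h | h
  · have h1 := ih (A ∪ B) (A ∩ B) (by omega) t ht (by omega) h (by omega)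
    rw [hc] at h1
    refine h1.trans (Finset.sum_le_sum fun x _ => ?_)
    have := POL_dec A B x
    omega
  · obtain ⟨u, hu⟩ : ∃ u, u = #(A ∩ B) := ⟨_, rfl⟩
    obtain ⟨t', ht'⟩ : ∃ t', t = t' + u := ⟨t - u, by omega⟩
    have hA' : #(A \ B) + u = #A := by rw [hu]; exact Finset.card_sdiff_add_card_inter A B
    have hB' : #(B \ A) + u = #B := by rw [hu, Finset.inter_comm]; exact Finset.card_sdiff_add_card_inter B A
    have h1 := ih (A \ B) (B \ A) (by omega) t' (by omega) (by omega) (by omega) (by omega)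
    have h2 : ∑ x : ZMod p, (min (rp (A \ B) (B \ A) x) t' + rp (A ∪ B) (A ∩ B) x) ≤ ∑ x : ZMod p, min (rp A B x) t := by
      refine Finset.sum_le_sum fun x _ => ?_
      have h3 := POL_dec A B x
      have h4 := POL_le2 (A ∪ B) (A ∩ B) x
      omega
    rw [Finset.sum_add_distrib, POL_sum] at h2
    refine le_trans ?_ h2
    refine le_trans ?_ (Nat.add_le_add_right h1 _)
    obtain ⟨w, hw⟩ : ∃ w, #(A \ B) + #(B \ A) = w + t' := ⟨#(A \ B) + #(B \ A) - t', by omega⟩
    have e1 : #(A \ B) + #(B \ A) - t' = w := by omega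
    have e2 : #A + #B - t = w + u := by omega
    have e3 : #(A ∪ B) = w + t' + u := by omega
    rw [e1, e2, e3, ← hu, ht']
    apply le_of_eq
    ring

theorem POL_main (p : ℕ) [Fact p.Prime] : ∀ (n : ℕ) (A B : Finset (ZMod p)), #B = n → ∀ t, 1 ≤ t → t ≤ #A → t ≤ #B → #A + #B ≤ p + t →
    t * (#A + #B - t) ≤ ∑ x : ZMod p, min (rp A B x) t := by
  intro n
  induction n using Nat.strong_induction_on with
  | _ n ih =>
    intro A B hn t ht hA hB hp
    rcases Nat.eq_or_lt_of_le hB with hB' | hB'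
    · have h1 : ∀ x ∈ (univ : Finset (ZMod p)), min (rp A B x) t = rp A B x := fun x _ => min_eq_left (by rw [hB']; exact POL_le2 A B x)
      rw [Finset.sum_congr rfl h1, POL_sum, ← hB', Nat.add_sub_cancel, mul_comm]
    rcases Nat.eq_or_lt_of_le hA with hA' | hA'
    · have h1 : ∀ x ∈ (univ : Finset (ZMod p)), min (rp A B x) t = rp A B x := fun x _ => min_eq_left (by rw [hA']; exact POL_le1 A B x)
      rw [Finset.sum_congr rfl h1, POL_sum, ← hA', Nat.add_sub_cancel_left]
    have hAp : #A < p := by omega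
    obtain ⟨b, hb, b', hb', hbb⟩ := Finset.one_lt_card.mp (by omega : 1 < #B)
    have hAne : A.Nonempty := Finset.card_pos.mp (by omega)
    obtain ⟨x, hx, hxd⟩ := POL_shift p A (b' - b) (sub_ne_zero.mpr (Ne.symm hbb)) hAne hAp
    have hstep := POL_step p n (fun A1 B1 hB1 t1 h1 h2 h3 h4 => ih #B1 hB1 A1 B1 rfl t1 h1 h2 h3 h4) (A.image (· - x)) (B.image (· - b))
      (by rw [POL_card]; exact hn) t ht (by rw [POL_card]; exact hA') (by rw [POL_card]; exact hB') (by rw [POL_card, POL_card]; exact hp) ?_ ?_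
    · rw [POL_card, POL_card] at hstep
      have e : ∑ y : ZMod p, min (rp (A.image (· - x)) (B.image (· - b)) y) t = ∑ y : ZMod p, min (rp A B y) t := by
        have h1 : ∀ y ∈ (univ : Finset (ZMod p)), min (rp (A.image (· - x)) (B.image (· - b)) y) t = min (rp A B (y + (x + b))) t := fun y _ => by rw [POL_tr]
        rw [Finset.sum_congr rfl h1]
        exact Equiv.sum_comp (Equiv.addRight (x + b)) (fun y => min (rp A B y) t)
      rw [e] at hstep
      exact hstep
    · apply Finset.card_pos.mpr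
      refine ⟨0, Finset.mem_inter.mpr ⟨Finset.mem_image.mpr ⟨x, hx, sub_self x⟩, Finset.mem_image.mpr ⟨b, hb, sub_self b⟩⟩⟩
    · apply Finset.card_lt_card
      rw [Finset.ssubset_iff_of_subset Finset.inter_subset_right]
      refine ⟨b' - b, Finset.mem_image.mpr ⟨b', hb', rfl⟩, ?_⟩
      intro h
      obtain ⟨c, hc, hcx⟩ := Finset.mem_image.mp (Finset.mem_inter.mp h).1
      apply hxd
      rw [← hcx, add_sub_cancel]
      exact hc

theorem POL : POL_stmt := by
  intro p _ A B t ht hA hB
  rcases le_or_gt (#A + #B) (p + t) with h | h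
  · rw [min_eq_right (by omega)]
    exact POL_main p _ A B rfl t ht hA hB h
  · have hBp : #B ≤ p := by
      have := Finset.card_le_univ B
      rwa [ZMod.card] at this
    obtain ⟨A', hA', hAc⟩ := Finset.exists_subset_card_eq (show p + t - #B ≤ #A by omega)
    have h1 := POL_main p _ A' B rfl t ht (by omega) hB (by omega)
    rw [min_eq_left (by omega)]
    have e : #A' + #B - t = p := by omega
    rw [e] at h1
    refine h1.trans (Finset.sum_le_sum fun x _ => ?_)
    exact min_le_min_right t (POL_mono A A' B hA' x)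

end Pool.Agent.HF
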